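import Pool.Agent.W845.PM.Base

set_option autoImplicit false
open scoped Classical
open Filter Topology MeasureTheory ProbabilityTheory
open scoped ENNReal NNReal BigOperators

namespace Pool.Agent.W391.PM

open Pool.Agent.W845.PM

noncomputable section

theorem sh_measurable (i : ℕ) : Measurable (sh i) := by
  unfold sh
  exact measurable_pi_lambda _ (fun l => measurable_pi_apply _)

theorem split_measurable :
    Measurable (fun ω : Om => (ω [], fun i : ℕ => sh i ω)) := by
  refine Measurable.prodMk (measurable_pi_apply _) ?_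
  exact measurable_pi_lambda _ (fun i => sh_measurable i)

theorem prod_measurable (a : Om → ℝ) (ha : Measurable a) :
    Measurable (fun z : ℕ × (ℕ → Om) => ∏ i ∈ Finset.range z.1, a (z.2 i)) := by
  refine measurable_from_prod_countable_right (fun n => ?_)
  show Measurable (fun F : ℕ → Om => ∏ i ∈ Finset.range n, a (F i))
  exact Finset.measurable_prod (Finset.range n)
    (f := fun i (F : ℕ → Om) => a (F i)) (fun i _ => ha.comp (measurable_pi_apply i))

theorem inner (c : ℝ≥0) (a : Om → ℝ) (ha : Measurable a) (n : ℕ) :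
    ∫ F : ℕ → Om, ∏ i ∈ Finset.range n, a (F i) ∂(Measure.infinitePi (fun _ : ℕ => Pm c)) =
      (∫ ω, a ω ∂(Pm c)) ^ n := by
  have h1 : ∀ F : ℕ → Om, ∏ i ∈ Finset.range n, a (F i) =
      (fun G : (Π _ : Finset.range n, Om) => ∏ i, a (G i)) ((Finset.range n).restrict F) := by
    intro F
    simp only [Finset.restrict]
    exact (Finset.prod_coe_sort (Finset.range n) (fun i => a (F i))).symm
  rw [integral_congr_ae (Filter.Eventually.of_forall h1)]
  have h2 := MeasureTheory.integral_restrict_infinitePi (μ := fun _ : ℕ => Pm c) (s := Finset.range n)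
    (f := fun G : (Π _ : Finset.range n, Om) => ∏ i, a (G i)) ?_
  · rw [h2, integral_fintype_prod_eq_pow]
    simp
  · refine Measurable.aestronglyMeasurable ?_
    exact Finset.measurable_prod _ (fun i _ => ha.comp (measurable_pi_apply i))

theorem gen : S_SPLIT → S_GEN := by
  intro hS c a ha hb
  have hsplit := hS c
  have hprodb : ∀ (n : ℕ) (F : ℕ → Om), 0 ≤ ∏ i ∈ Finset.range n, a (F i) ∧
      ∏ i ∈ Finset.range n, a (F i) ≤ 1 := by
    intro n F
    exact ⟨Finset.prod_nonneg (fun i _ => (hb _).1),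
      Finset.prod_le_one (fun i _ => (hb _).1) (fun i _ => (hb _).2)⟩
  have h1 : ∫ ω, ∏ i ∈ Finset.range (ω []), a (sh i ω) ∂(Pm c) =
      ∫ z : ℕ × (ℕ → Om), ∏ i ∈ Finset.range z.1, a (z.2 i)
        ∂((poissonMeasure c).prod (Measure.infinitePi (fun _ : ℕ => Pm c))) := by
    rw [← hsplit]
    rw [integral_map split_measurable.aemeasurable (prod_measurable a ha).aestronglyMeasurable]
  rw [h1]
  have hint : Integrable (fun z : ℕ × (ℕ → Om) => ∏ i ∈ Finset.range z.1, a (z.2 i))
      ((poissonMeasure c).prod (Measure.infinitePi (fun _ : ℕ => Pm c))) := by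
    refine Integrable.of_bound (prod_measurable a ha).aestronglyMeasurable 1 ?_
    refine Filter.Eventually.of_forall (fun z => ?_)
    rw [Real.norm_eq_abs, abs_of_nonneg (hprodb _ _).1]
    exact (hprodb _ _).2
  rw [integral_prod _ hint]
  simp only [inner c a ha]
  rw [integral_poissonMeasure]
  set m := ∫ ω, a ω ∂(Pm c) with hm
  have h2 : ∀ n : ℕ, (Real.exp (-(c : ℝ)) * (c : ℝ) ^ n / (n.factorial : ℝ)) • m ^ n =
      Real.exp (-(c : ℝ)) * (((c : ℝ) * m) ^ n / (n.factorial : ℝ)) := by
    intro n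
    rw [smul_eq_mul, mul_pow]; ring
  simp_rw [h2]
  rw [tsum_mul_left]
  have h3 : ∑' n : ℕ, ((c : ℝ) * m) ^ n / (n.factorial : ℝ) = Real.exp ((c : ℝ) * m) := by
    rw [Real.exp_eq_exp_ℝ, NormedSpace.exp_eq_tsum_div]
  rw [h3, ← Real.exp_add]
  congr 1
  ring

end

end Pool.Agent.W391.PM
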